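import Mathlib
import Pool.Agent.Y869.UP.Am
import Pool.Agent.Y869.UP.Sec

/-!
# Exact E-groups are not unitarizable

An E-group for a prime `p` is an infinite periodic residually finite `p`-group with property (T)
all of whose finitely generated proper subgroups are finite or of finite index. Whether some E-group
is unitarizable is open. Here: no E-group with property A (no exact E-group) is unitarizable, and
for every `c > 1` it has a representation bounded by `c` which is not unitarizable. More generally,
if for some `c > 1` all representations of an E-group bounded by `c` are unitarizable, then its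
sections (quotients of subgroups) with property A are locally finite, and finite if they are
quotients of subgroups of finite index.
-/

set_option autoImplicit false

noncomputable section

namespace Pool.Agent.Results.MP_ee37b4_al.ExactEGroups

section reps

/-- homomorphisms of `G` into the group of invertible bounded operators on `H` -/
abbrev Rep (G H : Type) [Group G] [NormedAddCommGroup H] [InnerProductSpace ℂ H] : Type :=
  G →* (H →L[ℂ] H)ˣ

variable {G H : Type} [Group G] [NormedAddCommGroup H] [InnerProductSpace ℂ H]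

/-- the operator of an invertible element -/
def val (S : (H →L[ℂ] H)ˣ) : H →L[ℂ] H := S

/-- `‖π(g)‖ ≤ c` for all `g` -/
def BoundedBy (π : Rep G H) (c : ℝ) : Prop := ∀ g : G, ‖val (π g)‖ ≤ c

/-- Some bounded invertible `S` makes all `S π(g) S⁻¹` unitary. -/
def IsUnitarizable [CompleteSpace H] (π : Rep G H) : Prop :=
  ∃ S : (H →L[ℂ] H)ˣ, ∀ g : G, val (S * π g * S⁻¹) ∈ unitary (H →L[ℂ] H)

end reps

/-- Every uniformly bounded representation of `G` on a complex Hilbert space is unitarizable. -/
def Unitarizable (G : Type) [Group G] : Prop :=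
  ∀ (H : Type) [NormedAddCommGroup H] [InnerProductSpace ℂ H] [CompleteSpace H] (π : Rep G H),
    (∃ c : ℝ, BoundedBy π c) → IsUnitarizable π

/-- Property A of Yu for the discrete group `G` (equivalent to exactness): for every finite `E` and
`ε > 0` there are a finite `K` and unit vectors `ξ_v ∈ ℓ²(G)` (`v ∈ G`), `ξ_v` supported in `v K`,
with `⟨ξ_v, ξ_{v g}⟩ ≥ 1 - ε` for all `v ∈ G` and `g ∈ E`. -/
def PropertyA (G : Type) [Group G] : Prop :=
  ∀ (E : Finset G) (ε : ℝ), 0 < ε → ∃ (K : Finset G) (ξ : G → G → ℝ),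
    (∀ v x, ξ v x ≠ 0 → v⁻¹ * x ∈ K) ∧
    (∀ v, ∑ k ∈ K, ξ v (v * k) ^ 2 = 1) ∧
    ∀ v, ∀ g ∈ E, 1 - ε ≤ ∑ k ∈ K, ξ v (v * k) * ξ (v * g) (v * k)

/-- Kazhdan's property (T) of a discrete group: there is a Kazhdan pair `(S, ε)` with `S` finite.
`H ≃ₗᵢ[ℂ] H` is the group of all unitary operators of `H`. -/
def PropertyT (G : Type) [Group G] : Prop :=
  ∃ (S : Finset G) (ε : ℝ), 0 < ε ∧
    ∀ (H : Type) [NormedAddCommGroup H] [InnerProductSpace ℂ H] [CompleteSpace H]
      (ρ : G →* (H ≃ₗᵢ[ℂ] H)), (∃ x : H, ‖x‖ = 1 ∧ ∀ s ∈ S, ‖ρ s x - x‖ < ε) →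
      ∃ x : H, x ≠ 0 ∧ ∀ g : G, ρ g x = x

/-- E-groups for `p`: infinite; periodic; residually a finite `p`-group; every finitely generated
subgroup `H ≠ G` is finite or of finite index; property (T). -/
def IsEGroup (p : ℕ) (G : Type) [Group G] : Prop :=
  Infinite G ∧ (∀ g : G, ∃ n : ℕ, 0 < n ∧ g ^ n = 1) ∧
  (∀ g : G, g ≠ 1 → ∃ N : Subgroup G, N.Normal ∧ (∃ k : ℕ, N.index = p ^ k) ∧ g ∉ N) ∧
  (∀ H : Subgroup G, H.FG → H ≠ ⊤ → Finite H ∨ H.FiniteIndex) ∧
  PropertyT G

/-- Every finitely generated subgroup is finite. -/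
def LocallyFinite (Q : Type) [Group Q] : Prop := ∀ K : Subgroup Q, K.FG → Finite K

/-- For every `c > 1` some representation of `G` bounded by `c` is not unitarizable. -/
def BadNearOne (G : Type) [Group G] : Prop :=
  ∀ c : ℝ, 1 < c → ∃ (H : Type) (_ : NormedAddCommGroup H) (_ : InnerProductSpace ℂ H)
    (_ : CompleteSpace H) (π : Rep G H), BoundedBy π c ∧ ¬ IsUnitarizable π

theorem sim_of_unit {G H : Type} [Group G] [NormedAddCommGroup H] [InnerProductSpace ℂ H]
    [CompleteSpace H] {π : Rep G H} (h : IsUnitarizable π) : ∃ κ : ℝ, TH278.DX.Sim π κ := by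
  obtain ⟨S, hS⟩ := h
  exact ⟨_, S, le_rfl, hS⟩

theorem not_unitarizable {G : Type} [Group G] (h : BadNearOne G) : ¬ Unitarizable G := by
  intro hU
  obtain ⟨H, _, _, _, π, hb, hπ⟩ := h 2 one_lt_two
  exact hπ (hU H π ⟨2, hb⟩)

/-- sections with property A are amenable -/
theorem amenable_section {G Q : Type} [Group G] [Group Q] (h : ¬ BadNearOne G)
    (Λ : Subgroup G) (φ : Λ →* Q) (hφ : Function.Surjective φ) (hQ : PropertyA Q) :
    TH278.DX.Amenable Q := by
  unfold BadNearOne at h
  push Not at h
  obtain ⟨c, hc, h⟩ := h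
  refine Y869.UP.amenable_of_upTo hQ c hc ?_
  exact Y324.DX.section_c c
    (fun H _ _ _ π hπ => sim_of_unit (h H _ _ _ π hπ)) Λ φ hφ

/-- subgroups of infinite index are locally finite -/
theorem locallyFinite_of_infinite_index {p : ℕ} {G : Type} [Group G] (hG : IsEGroup p G)
    (Λ : Subgroup G) (hΛ : ¬ Λ.FiniteIndex) : LocallyFinite Λ := by
  intro K hK
  have h1 : (K.map Λ.subtype).FG := by
    classical
    obtain ⟨S, hS⟩ := hK
    exact ⟨S.image Λ.subtype, by rw [Finset.coe_image, ← MonoidHom.map_closure, hS]⟩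
  have hle : K.map Λ.subtype ≤ Λ := by
    rintro _ ⟨k, -, rfl⟩
    exact k.2
  have h2 : K.map Λ.subtype ≠ ⊤ := by
    intro h
    apply hΛ
    rw [h, top_le_iff] at hle
    rw [hle]
    infer_instance
  rcases hG.2.2.2.1 _ h1 h2 with h | h
  · exact Finite.of_injective (fun k : K => (⟨_, k, k.2, rfl⟩ : K.map Λ.subtype)) (by
      intro a b hab
      have : (a : G) = b := congrArg (fun x : K.map Λ.subtype => (x : G)) hab
      exact Subtype.ext (Subtype.ext this))
  · exact absurd (Subgroup.finiteIndex_of_le hle) hΛ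

theorem LocallyFinite.quot {P Q : Type} [Group P] [Group Q] (hP : LocallyFinite P)
    (φ : P →* Q) (hφ : Function.Surjective φ) : LocallyFinite Q := by
  classical
  intro K hK
  obtain ⟨S, rfl⟩ := hK
  choose f hf using hφ
  have h1 : Finite (Subgroup.closure ((S.image f : Finset P) : Set P)) := hP _ ⟨_, rfl⟩
  have h2 : Subgroup.closure (S : Set Q) =
      (Subgroup.closure ((S.image f : Finset P) : Set P)).map φ := by
    rw [MonoidHom.map_closure]
    congr 1
    ext x
    simp only [Finset.coe_image, Set.mem_image, Finset.mem_coe, exists_exists_and_eq_and]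
    constructor
    · exact fun hx => ⟨x, hx, hf x⟩
    · rintro ⟨y, hy, rfl⟩
      rw [hf]
      exact hy
  rw [h2]
  exact Set.Finite.image φ h1

/-- **Exact E-groups are not unitarizable.** Let `G` be an E-group for the prime `p`.
(1) If `G` has property A, then for every `c > 1` some representation of `G` bounded by `c` is not
unitarizable; in particular `G` is not unitarizable.
(2) The same conclusion holds if some quotient of some subgroup of `G` has property A and is not
locally finite, and if some infinite quotient of some subgroup of finite index has property A.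
(3) So if `G` is unitarizable, then every section of `G` with property A is locally finite, it is
finite if it is finitely generated, and no infinite quotient of a subgroup of finite index has
property A. -/
theorem result (p : ℕ) (_hp : p.Prime) (G : Type) [Group G] (hG : IsEGroup p G) :
    (PropertyA G → BadNearOne G ∧ ¬ Unitarizable G) ∧
    (∀ (Λ : Subgroup G) (Q : Type) [Group Q] (φ : Λ →* Q), Function.Surjective φ → PropertyA Q →
      (¬ LocallyFinite Q ∨ (Infinite Q ∧ Λ.FiniteIndex)) → BadNearOne G ∧ ¬ Unitarizable G) ∧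
    (Unitarizable G → ∀ (Λ : Subgroup G) (Q : Type) [Group Q] (φ : Λ →* Q),
      Function.Surjective φ → PropertyA Q →
        LocallyFinite Q ∧ (Group.FG Q → Finite Q) ∧ (Λ.FiniteIndex → Finite Q)) := by
  have key : ∀ (Λ : Subgroup G) (Q : Type) [Group Q] (φ : Λ →* Q), Function.Surjective φ →
      PropertyA Q → ¬ BadNearOne G → LocallyFinite Q ∧ (Λ.FiniteIndex → Finite Q) := by
    intro Λ Q _ φ hφ hQ hb
    have h1 : Λ.FiniteIndex → Finite Q := fun h =>
      Y869.UP.finite_section hG.2.2.2.2 Λ φ hφ (amenable_section hb Λ φ hφ hQ)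
    refine ⟨?_, h1⟩
    by_cases h : Λ.FiniteIndex
    · intro K _
      have := h1 h
      infer_instance
    · exact (locallyFinite_of_infinite_index hG Λ h).quot φ hφ
  have hsec : ∀ (Λ : Subgroup G) (Q : Type) [Group Q] (φ : Λ →* Q), Function.Surjective φ →
      PropertyA Q → (¬ LocallyFinite Q ∨ (Infinite Q ∧ Λ.FiniteIndex)) → BadNearOne G := by
    intro Λ Q _ φ hφ hQ h
    by_contra hb
    obtain ⟨h1, h2⟩ := key Λ Q φ hφ hQ hb
    rcases h with h | ⟨h, h'⟩
    · exact h h1
    · exact h.not_finite (h2 h')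
  refine ⟨fun hA => ?_, fun Λ Q _ φ hφ hQ h => ?_, fun hU Λ Q _ φ hφ hQ => ?_⟩
  · have h1 : BadNearOne G := by
      refine hsec ⊤ G (Subgroup.topEquiv : (⊤ : Subgroup G) ≃* G).toMonoidHom
        (Subgroup.topEquiv : (⊤ : Subgroup G) ≃* G).surjective hA (Or.inr ⟨hG.1, inferInstance⟩)
    exact ⟨h1, not_unitarizable h1⟩
  · have h1 := hsec Λ Q φ hφ hQ h
    exact ⟨h1, not_unitarizable h1⟩
  · obtain ⟨h1, h2⟩ := key Λ Q φ hφ hQ fun h => not_unitarizable h hU
    refine ⟨h1, fun hfg => ?_, h2⟩
    have h3 : Finite (⊤ : Subgroup Q) := h1 ⊤ ((Group.fg_def (G := Q)).1 hfg)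
    exact Finite.of_equiv _ (Subgroup.topEquiv (G := Q)).toEquiv

end Pool.Agent.Results.MP_ee37b4_al.ExactEGroups
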